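import Pool.Agent.Helper85.EV.Nf

/-!
# The window lemma for a box

`Bx n F`: `F` is a functional on words with letters `< n` (the words which are inserted into a box of a diagram, the
rest of the diagram is fixed): braid relations, skein relation for a square, positivity, monotonicity.
`window`: every word of length `L0 n` has an expansion with the two terms `X ^ k` and `X ^ (k + 2)`.
`tail_windows`: the decay of `F w` on a circle.
-/

set_option autoImplicit false

namespace Pool.Agent.Helper85.Box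

open Polynomial Pool.Agent.Helper76.Conway.Top Pool.Agent.Helper85.EV

/-- all letters smaller than `n` -/
def Lt (n : ℕ) (u : List ℕ) : Prop := ∀ a ∈ u, a < n

theorem Lt.append {n : ℕ} {u v : List ℕ} (hu : Lt n u) (hv : Lt n v) : Lt n (u ++ v) := by
  intro a ha
  rcases List.mem_append.1 ha with ha | ha
  · exact hu a ha
  · exact hv a ha

theorem Lt.left {n : ℕ} {u v : List ℕ} (h : Lt n (u ++ v)) : Lt n u :=
  fun a ha => h a (List.mem_append_left _ ha)

theorem Lt.right {n : ℕ} {u v : List ℕ} (h : Lt n (u ++ v)) : Lt n v :=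
  fun a ha => h a (List.mem_append_right _ ha)

theorem Lt.single {n a : ℕ} (ha : a < n) : Lt n [a] := by
  intro b hb
  rw [List.mem_singleton.1 hb]
  exact ha

theorem Lt.nil (n : ℕ) : Lt n [] := by
  intro b hb
  simp at hb

/-- the sum of a list of terms -/
noncomputable def val (F : List ℕ → ℤ[X]) (S : List (ℕ × List ℕ)) (x y : List ℕ) : ℤ[X] :=
  (S.map fun p => X ^ p.1 * F (x ++ (p.2 ++ y))).sum

theorem val_nil (F : List ℕ → ℤ[X]) (x y : List ℕ) : val F [] x y = 0 := rfl

theorem val_append (F : List ℕ → ℤ[X]) (S T : List (ℕ × List ℕ)) (x y : List ℕ) :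
    val F (S ++ T) x y = val F S x y + val F T x y := by
  unfold val
  rw [List.map_append, List.sum_append]

theorem val_shift (F : List ℕ → ℤ[X]) (k : ℕ) (S : List (ℕ × List ℕ)) (x y : List ℕ) :
    val F (S.map fun p => (k + p.1, p.2)) x y = X ^ k * val F S x y := by
  induction S with
  | nil => simp [val]
  | cons p S ih =>
    unfold val at ih ⊢
    rw [List.map_cons, List.map_cons, List.sum_cons, ih, List.map_cons, List.sum_cons, mul_add,
      pow_add, mul_assoc]

theorem val_ctx (F : List ℕ → ℤ[X]) (c d : List ℕ) (S : List (ℕ × List ℕ)) (x y : List ℕ) :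
    val F (S.map fun p => (p.1, c ++ (p.2 ++ d))) x y = val F S (x ++ c) (d ++ y) := by
  unfold val
  rw [List.map_map]
  congr 1
  apply List.map_congr_left
  intro p _
  simp

/-- all words of a list of terms have letters `< n` -/
def LtS (n : ℕ) (S : List (ℕ × List ℕ)) : Prop := ∀ p ∈ S, Lt n p.2

theorem LtS.append {n : ℕ} {S T : List (ℕ × List ℕ)} (hS : LtS n S) (hT : LtS n T) :
    LtS n (S ++ T) := by
  intro p hp
  rcases List.mem_append.1 hp with hp | hp
  · exact hS p hp
  · exact hT p hp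

theorem LtS.shift {n : ℕ} {S : List (ℕ × List ℕ)} (hS : LtS n S) (k : ℕ) :
    LtS n (S.map fun p => (k + p.1, p.2)) := by
  intro p hp
  obtain ⟨q, hq, rfl⟩ := List.mem_map.1 hp
  exact hS q hq

theorem LtS.ctx {n : ℕ} {S : List (ℕ × List ℕ)} (hS : LtS n S) {c d : List ℕ} (hc : Lt n c)
    (hd : Lt n d) : LtS n (S.map fun p => (p.1, c ++ (p.2 ++ d))) := by
  intro p hp
  obtain ⟨q, hq, rfl⟩ := List.mem_map.1 hp
  exact hc.append ((hS q hq).append hd)

/-- the value at a real number -/
noncomputable def ev (ρ : ℝ) (P : ℤ[X]) : ℝ := aeval ρ P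

/-- Harnack inequality -/
def Ha (F : List ℕ → ℤ[X]) (n : ℕ) (b v : List ℕ) (k : ℕ) : Prop :=
  ∀ ρ : ℝ, 0 < ρ → ∀ x y : List ℕ, Lt n x → Lt n y →
    ev ρ (F (x ++ (b ++ y))) ≤ (ρ + ρ⁻¹) ^ k * ev ρ (F (x ++ (v ++ y)))

section Ha

variable {F : List ℕ → ℤ[X]} {n k k' : ℕ} {b v w : List ℕ}

theorem Ha.trans (h : Ha F n b v k) (h' : Ha F n v w k') : Ha F n b w (k + k') := by
  intro ρ hρ x y hx hy
  refine (h ρ hρ x y hx hy).trans ?_
  rw [pow_add, mul_assoc]
  exact mul_le_mul_of_nonneg_left (h' ρ hρ x y hx hy) (by positivity)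

theorem Ha.ctx (h : Ha F n b v k) {c d : List ℕ} (hc : Lt n c) (hd : Lt n d) :
    Ha F n (c ++ (b ++ d)) (c ++ (v ++ d)) k := by
  intro ρ hρ x y hx hy
  have := h ρ hρ (x ++ c) (d ++ y) (hx.append hc) (hd.append hy)
  simpa using this

end Ha

/-- greedy reduction -/
def Gr (F : List ℕ → ℤ[X]) (n : ℕ) (b v : List ℕ) (k : ℕ) : Prop :=
  Ha F n b v k ∧ ∃ S, LtS n S ∧
    ∀ x y : List ℕ, F (x ++ (b ++ y)) = X ^ k * F (x ++ (v ++ y)) + val F S x y

/-- reduction with two terms -/
def Tw (F : List ℕ → ℤ[X]) (n : ℕ) (b v : List ℕ) (k : ℕ) : Prop :=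
  Ha F n b v (k + 2) ∧ ∃ S, LtS n S ∧
    ∀ x y : List ℕ, F (x ++ (b ++ y)) = (X ^ k + X ^ (k + 2)) * F (x ++ (v ++ y)) + val F S x y

section Gr

variable {F : List ℕ → ℤ[X]} {n k k' : ℕ} {b v w : List ℕ}

theorem Gr.trans (h : Gr F n b v k) (h' : Gr F n v w k') : Gr F n b w (k + k') := by
  obtain ⟨hH, S, hS, hE⟩ := h
  obtain ⟨hH', S', hS', hE'⟩ := h'
  refine ⟨hH.trans hH', (S'.map fun p => (k + p.1, p.2)) ++ S, (hS'.shift k).append hS, ?_⟩
  intro x y
  rw [hE, hE', val_append, val_shift]
  ring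

theorem Gr.ctx (h : Gr F n b v k) {c d : List ℕ} (hc : Lt n c) (hd : Lt n d) :
    Gr F n (c ++ (b ++ d)) (c ++ (v ++ d)) k := by
  obtain ⟨hH, S, hS, hE⟩ := h
  refine ⟨hH.ctx hc hd, S.map fun p => (p.1, c ++ (p.2 ++ d)), hS.ctx hc hd, ?_⟩
  intro x y
  rw [val_ctx]
  have := hE (x ++ c) (d ++ y)
  simpa using this

theorem Gr.right (h : Gr F n b v k) {d : List ℕ} (hd : Lt n d) :
    Gr F n (b ++ d) (v ++ d) k := by
  have := h.ctx (Lt.nil n) hd
  simpa using this

theorem Tw.ctx (h : Tw F n b v k) {c d : List ℕ} (hc : Lt n c) (hd : Lt n d) :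
    Tw F n (c ++ (b ++ d)) (c ++ (v ++ d)) k := by
  obtain ⟨hH, S, hS, hE⟩ := h
  refine ⟨hH.ctx hc hd, S.map fun p => (p.1, c ++ (p.2 ++ d)), hS.ctx hc hd, ?_⟩
  intro x y
  rw [val_ctx]
  have := hE (x ++ c) (d ++ y)
  simpa using this

theorem Tw.right (h : Tw F n b v k) {d : List ℕ} (hd : Lt n d) :
    Tw F n (b ++ d) (v ++ d) k := by
  have := h.ctx (Lt.nil n) hd
  simpa using this

theorem Gr.tw (h : Gr F n b v k) (h' : Tw F n v w k') : Tw F n b w (k + k') := by
  obtain ⟨hH, S, hS, hE⟩ := h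
  obtain ⟨hH', S', hS', hE'⟩ := h'
  refine ⟨hH.trans hH', (S'.map fun p => (k + p.1, p.2)) ++ S, (hS'.shift k).append hS, ?_⟩
  intro x y
  rw [hE, hE', val_append, val_shift]
  ring

theorem Tw.gr (h : Tw F n b v k) (h' : Gr F n v w k') : Tw F n b w (k + k') := by
  obtain ⟨hH, S, hS, hE⟩ := h
  obtain ⟨hH', S', hS', hE'⟩ := h'
  refine ⟨?_, (S'.map fun p => (k + p.1, p.2)) ++ ((S'.map fun p => (k + 2 + p.1, p.2)) ++ S),
    (hS'.shift k).append ((hS'.shift (k + 2)).append hS), ?_⟩
  · have := hH.trans hH'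
    rwa [show k + 2 + k' = k + k' + 2 by ring] at this
  intro x y
  rw [hE, hE', val_append, val_append, val_shift, val_shift]
  ring

end Gr

theorem aeval_nonneg_of_le {ρ : ℝ} (hρ : 0 < ρ) {P : ℤ[X]} (hP : Le 0 P) : 0 ≤ aeval ρ P := by
  rw [aeval_eq_sum_range]
  refine Finset.sum_nonneg fun i _ => ?_
  have h2 := hP i
  rw [coeff_zero] at h2
  rw [zsmul_eq_mul]
  have h3 : (0 : ℝ) ≤ (P.coeff i : ℝ) := by exact_mod_cast h2
  positivity

/-- A functional on the words of a box. -/
structure Bx (n : ℕ) (F : List ℕ → ℤ[X]) : Prop where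
  eqv : ∀ u v, Eqv n u v → F u = F v
  quad : ∀ x j y, j < n → F (x ++ j :: j :: y) = F (x ++ y) + X * F (x ++ j :: y)
  mono : ∀ x i y, i < n → Lt n x → Lt n y → Le (X * F (x ++ y)) (F (x ++ i :: y))
  pos : ∀ w, Lt n w → Le 0 (F w)

section Bx

variable {n : ℕ} {F : List ℕ → ℤ[X]} (h : Bx n F)

include h

theorem ev_nonneg {ρ : ℝ} (hρ : 0 < ρ) {w : List ℕ} (hw : Lt n w) : 0 ≤ ev ρ (F w) :=
  aeval_nonneg_of_le hρ (h.pos w hw)

theorem ev_mono {ρ : ℝ} (hρ : 0 < ρ) {x y : List ℕ} {i : ℕ} (hi : i < n) (hx : Lt n x)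
    (hy : Lt n y) : ρ * ev ρ (F (x ++ y)) ≤ ev ρ (F (x ++ i :: y)) := by
  have h2 := aeval_nonneg_of_le hρ (h.mono x i y hi hx hy).sub_nonneg
  rw [map_sub, map_mul, aeval_X] at h2
  unfold ev
  linarith

theorem Fw_eqv {u v : List ℕ} (e : Eqv n u v) (x y : List ℕ) :
    F (x ++ (u ++ y)) = F (x ++ (v ++ y)) := h.eqv _ _ (e.ctx x y)

theorem gr_eqv {u v : List ℕ} (e : Eqv n u v) : Gr F n u v 0 := by
  refine ⟨?_, [], ?_, ?_⟩
  · intro ρ hρ x y hx hy
    rw [Fw_eqv h e, pow_zero, one_mul]
  · intro p hp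
    simp at hp
  · intro x y
    rw [Fw_eqv h e, pow_zero, one_mul, val_nil, add_zero]

theorem gr_sq {j : ℕ} (hj : j < n) : Gr F n [j, j] [j] 1 := by
  have hE : ∀ x y : List ℕ, F (x ++ ([j, j] ++ y)) =
      X ^ 1 * F (x ++ ([j] ++ y)) + val F [(0, [])] x y := by
    intro x y
    have := h.quad x j y hj
    unfold val
    simp only [List.map_cons, List.map_nil, List.sum_cons, List.sum_nil, pow_zero, one_mul,
      add_zero, List.nil_append, pow_one]
    rw [add_comm]
    exact this
  refine ⟨?_, [(0, [])], ?_, hE⟩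
  · intro ρ hρ x y hx hy
    have h1 := h.quad x j y hj
    have h2 := ev_mono h hρ hj hx hy
    have h3 : ev ρ (F (x ++ ([j, j] ++ y))) =
        ev ρ (F (x ++ y)) + ρ * ev ρ (F (x ++ j :: y)) := by
      unfold ev
      have e : x ++ ([j, j] ++ y) = x ++ j :: j :: y := rfl
      rw [e, h1, map_add, map_mul, aeval_X]
    have e : x ++ ([j] ++ y) = x ++ j :: y := rfl
    rw [h3, e, pow_one]
    have h4 : ev ρ (F (x ++ y)) ≤ ρ⁻¹ * ev ρ (F (x ++ j :: y)) := by
      rw [inv_mul_eq_div, le_div_iff₀ hρ, mul_comm]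
      exact h2
    linarith
  · intro p hp
    rw [List.mem_singleton.1 hp]
    exact Lt.nil n

/-- a letter which is a descent can be dropped -/
theorem gr_stay {v : List ℕ} (hv : Nf n v) {a : ℕ} (ha : a < n) (hd : pm v (a + 1) < pm v a) :
    Gr F n (v ++ [a]) v 1 := by
  obtain ⟨v', hv', e⟩ := hv.desc ha hd
  have e1 : Eqv n (v ++ [a]) (v' ++ [a, a]) := by
    have := e.ctx [] [a]
    simpa using this
  have g1 := gr_eqv h e1
  have g2 := (gr_sq h ha).ctx (hv'.lt) (Lt.nil n)
  rw [List.append_nil, List.append_nil] at g2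
  have g3 := gr_eqv h e.symm
  exact (g1.trans g2).trans g3

theorem gr_stays {v : List ℕ} (hv : Nf n v) {c : List ℕ} (hc : Lt n c)
    (hd : ∀ a ∈ c, pm v (a + 1) < pm v a) : Gr F n (v ++ c) v c.length := by
  induction c with
  | nil =>
    rw [List.append_nil]
    exact gr_eqv h (Eqv.refl _)
  | cons a c ih =>
    have ha := hc a (by simp)
    have hc' : Lt n c := fun b hb => hc b (List.mem_cons_of_mem _ hb)
    have g1 := (gr_stay h hv ha (hd a (by simp))).right hc'
    have g2 := ih hc' fun b hb => hd b (List.mem_cons_of_mem _ hb)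
    have g3 := g1.trans g2
    rw [List.append_assoc, List.singleton_append] at g3
    rw [List.length_cons, add_comm]
    exact g3

/-- the greedy path -/
theorem gr_all (c : List ℕ) (hc : Lt n c) : ∀ v : List ℕ, Nf n v →
    ∃ v' k, Nf n v' ∧ k ≤ c.length ∧ Gr F n (v ++ c) v' k := by
  induction c with
  | nil =>
    intro v hv
    refine ⟨v, 0, hv, le_refl _, ?_⟩
    rw [List.append_nil]
    exact gr_eqv h (Eqv.refl _)
  | cons a c ih =>
    intro v hv
    have ha := hc a (by simp)
    have hc' : Lt n c := fun b hb => hc b (List.mem_cons_of_mem _ hb)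
    rcases hv.step ha with ⟨_, v1, hv1, e⟩ | ⟨hd, _⟩
    · obtain ⟨v', k, hv', hk, g⟩ := ih hc' v1 hv1
      refine ⟨v', k, hv', by simp; omega, ?_⟩
      have g1 := (gr_eqv h e).right hc'
      have g2 := g1.trans g
      rw [List.append_assoc, List.singleton_append, zero_add] at g2
      exact g2
    · obtain ⟨v', k, hv', hk, g⟩ := ih hc' v hv
      refine ⟨v', 1 + k, hv', by simp; omega, ?_⟩
      have g1 := (gr_stay h hv ha hd).right hc'
      have g2 := g1.trans g
      rw [List.append_assoc, List.singleton_append] at g2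
      exact g2

/-- two paths with the same end -/
theorem tw_pair {v : List ℕ} (hv : Nf n v) {i : ℕ} {c : List ℕ} (hi : i < n) (hc : Lt n c)
    (hdi : pm v (i + 1) < pm v i) (hd : ∀ a ∈ c, pm v (a + 1) < pm v a) (hic : i ∉ c) :
    Tw F n (v ++ (i :: (c ++ [i]))) v c.length := by
  obtain ⟨v', hv', e⟩ := hv.desc hi hdi
  have hall : Gr F n (v ++ (i :: (c ++ [i]))) v (c.length + 2) := by
    have := gr_stays h hv (c := i :: (c ++ [i])) (by
      intro a ha
      simp only [List.mem_cons, List.mem_append, List.not_mem_nil, or_false] at ha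
      rcases ha with rfl | ha | rfl
      · exact hi
      · exact hc a ha
      · exact hi) (by
      intro a ha
      simp only [List.mem_cons, List.mem_append, List.not_mem_nil, or_false] at ha
      rcases ha with rfl | ha | rfl
      · exact hdi
      · exact hd a ha
      · exact hdi)
    simpa using this
  have h1 := gr_stays h hv (c := c ++ [i]) (hc.append (Lt.single hi)) (by
      intro a ha
      simp only [List.mem_append, List.mem_cons, List.not_mem_nil, or_false] at ha
      rcases ha with ha | rfl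
      · exact hd a ha
      · exact hdi)
  have h2 := gr_stays h hv' hc (fun a ha => desc_of_desc e (fun hh => hic (hh ▸ ha)) hdi (hd a ha))
  obtain ⟨_, S1, hS1, hE1⟩ := h1
  obtain ⟨_, S2, hS2, hE2⟩ := h2
  refine ⟨hall.1, (S1.map fun p => (1 + p.1, p.2)) ++ (S2.map fun p => (p.1, [] ++ (p.2 ++ [i]))),
    (hS1.shift 1).append (hS2.ctx (Lt.nil n) (Lt.single hi)), ?_⟩
  intro x y
  have e1 : Eqv n (v ++ (i :: (c ++ [i]))) (v' ++ (i :: i :: (c ++ [i]))) := by
    have := e.ctx [] (i :: (c ++ [i]))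
    simpa using this
  have e2 : F (x ++ (v' ++ (i :: i :: (c ++ [i])) ++ y)) =
      F (x ++ ((v' ++ c) ++ ([i] ++ y))) +
        X * F (x ++ ((v' ++ [i]) ++ ((c ++ [i]) ++ y))) := by
    have := h.quad (x ++ v') i ((c ++ [i]) ++ y) hi
    simpa using this
  have e3 : F (x ++ ((v' ++ [i]) ++ ((c ++ [i]) ++ y))) =
      F (x ++ (v ++ ((c ++ [i]) ++ y))) := Fw_eqv h e.symm _ _
  have e4 : F (x ++ ((v' ++ [i]) ++ y)) = F (x ++ (v ++ y)) :=
    Fw_eqv h e.symm _ _
  have e5 := hE2 x ([i] ++ y)
  have e6 := hE1 x y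
  rw [Fw_eqv h e1, e2, e3, e5, val_append, val_shift, val_ctx]
  rw [show x ++ (v ++ ((c ++ [i]) ++ y)) = x ++ (v ++ (c ++ [i]) ++ y) by simp, e6]
  rw [show x ++ (v' ++ ([i] ++ y)) = x ++ ((v' ++ [i]) ++ y) by simp, e4]
  simp only [List.append_nil, List.length_append, List.length_singleton]
  ring

omit h in
theorem split_pair {d : List ℕ} (hd : ¬ d.Nodup) :
    ∃ d1 i d2 d3, d = d1 ++ i :: (d2 ++ i :: d3) ∧ i ∉ d2 := by
  induction d with
  | nil => exact absurd List.nodup_nil hd
  | cons a d ih =>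
    by_cases ha : a ∈ d
    · obtain ⟨u1, u2, rfl, h1⟩ := split_first ha
      exact ⟨[], a, u1, u2, rfl, h1⟩
    · have h1 : ¬ d.Nodup := fun h1 => hd (List.nodup_cons.2 ⟨ha, h1⟩)
      obtain ⟨d1, i, d2, d3, rfl, h2⟩ := ih h1
      exact ⟨a :: d1, i, d2, d3, rfl, h2⟩

omit h in
theorem not_nodup_of_length {d : List ℕ} (hd : Lt n d) (hl : n < d.length) : ¬ d.Nodup := by
  intro h1
  have h2 : d.toFinset ⊆ Finset.range n := by
    intro a ha
    rw [List.mem_toFinset] at ha
    rw [Finset.mem_range]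
    exact hd a ha
  have h3 := Finset.card_le_card h2
  rw [List.toFinset_card_of_nodup h1, Finset.card_range] at h3
  omega

omit h in
theorem split_not {D : ℕ → Prop} (d : List ℕ) :
    (∀ a ∈ d, D a) ∨ ∃ d1 a d2, d = d1 ++ a :: d2 ∧ (∀ b ∈ d1, D b) ∧ ¬ D a := by
  classical
  induction d with
  | nil => left; intro a ha; simp at ha
  | cons a d ih =>
    by_cases ha : D a
    · rcases ih with h1 | ⟨d1, b, d2, rfl, h1, h2⟩
      · left
        intro b hb
        rcases List.mem_cons.1 hb with rfl | hb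
        · exact ha
        · exact h1 b hb
      · right
        refine ⟨a :: d1, b, d2, rfl, ?_, h2⟩
        intro c hc
        rcases List.mem_cons.1 hc with rfl | hc
        · exact ha
        · exact h1 c hc
    · right
      exact ⟨[], a, d, rfl, by simp, ha⟩

/-- **Window lemma**, with the number `m` of possible up steps -/
theorem window_aux {U : ℕ} (hU : ∀ v, Nf n v → v.length ≤ U) : ∀ (m : ℕ) (v : List ℕ), Nf n v →
    U ≤ v.length + m → ∀ c : List ℕ, Lt n c → (m + 1) * (n + 1) ≤ c.length →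
      ∃ v' k, Lt n v' ∧ k + 2 ≤ c.length ∧ Tw F n (v ++ c) v' k := by
  intro m
  induction m using Nat.strong_induction_on with
  | _ m ih =>
    intro v hv hm c hc hlen
    obtain ⟨d, hd⟩ : ∃ d, d = c.take (n + 1) := ⟨_, rfl⟩
    obtain ⟨e, he⟩ : ∃ e, e = c.drop (n + 1) := ⟨_, rfl⟩
    have hde : c = d ++ e := by rw [hd, he, List.take_append_drop]
    have hdl : d.length = n + 1 := by
      rw [hd, List.length_take]
      have : n + 1 ≤ (m + 1) * (n + 1) := Nat.le_mul_of_pos_left _ (by omega)
      omega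
    subst hde
    have hdL : Lt n d := hc.left
    have heL : Lt n e := hc.right
    rcases split_not (D := fun a => pm v (a + 1) < pm v a) d with h1 | ⟨d1, a, d2, h2, h3, h4⟩
    · obtain ⟨d1, i, d2, d3, h2, h3⟩ := split_pair (not_nodup_of_length hdL (by omega))
      have hd1 : Lt n d1 := fun b hb => hdL b (by rw [h2]; simp [hb])
      have hd2 : Lt n d2 := fun b hb => hdL b (by rw [h2]; simp [hb])
      have hd3 : Lt n d3 := fun b hb => hdL b (by rw [h2]; simp [hb])
      have hi : i < n := hdL i (by rw [h2]; simp)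
      have g1 := gr_stays h hv hd1 fun b hb => h1 b (by rw [h2]; simp [hb])
      have g2 := tw_pair h hv hi hd2 (h1 i (by rw [h2]; simp))
        (fun b hb => h1 b (by rw [h2]; simp [hb])) h3
      obtain ⟨v', k, hv', hk, g3⟩ := gr_all h (d3 ++ e) (hd3.append heL) v hv
      have hr : Lt n (i :: (d2 ++ [i]) ++ (d3 ++ e)) := by
        intro b hb
        simp only [List.mem_append, List.mem_cons, List.not_mem_nil, or_false] at hb
        rcases hb with (rfl | hb | rfl) | hb | hb
        · exact hi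
        · exact hd2 b hb
        · exact hi
        · exact hd3 b hb
        · exact heL b hb
      have g4 := (g1.right hr).tw (k' := d2.length) (w := v ++ (d3 ++ e)) (by
        have := g2.right (hd3.append heL)
        simpa using this)
      have g5 := g4.gr g3
      refine ⟨v', d1.length + d2.length + k, hv'.lt, ?_, ?_⟩
      · rw [List.length_append] at hk
        rw [h2]
        simp only [List.length_append, List.length_cons]
        omega
      · rw [h2]
        simpa using g5
    · have hd1 : Lt n d1 := fun b hb => hdL b (by rw [h2]; simp [hb])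
      have hd2 : Lt n d2 := fun b hb => hdL b (by rw [h2]; simp [hb])
      have ha : a < n := hdL a (by rw [h2]; simp)
      rcases hv.step ha with ⟨_, v1, hv1, e1⟩ | ⟨h5, _⟩
      · have g1 := gr_stays h hv hd1 h3
        have hr : Lt n (a :: (d2 ++ e)) := by
          intro b hb
          simp only [List.mem_append, List.mem_cons] at hb
          rcases hb with rfl | hb | hb
          · exact ha
          · exact hd2 b hb
          · exact heL b hb
        have hl1 := e1.length_eq
        rw [List.length_append, List.length_singleton] at hl1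
        have hU1 := hU v1 hv1
        cases m with
        | zero => omega
        | succ m =>
          have hlen' : (m + 1) * (n + 1) ≤ (d2 ++ e).length := by
            rw [List.length_append, hdl] at hlen
            rw [List.length_append]
            have : (m + 1 + 1) * (n + 1) = (m + 1) * (n + 1) + (n + 1) := by ring
            omega
          obtain ⟨v', k, hv', hk, g2⟩ := ih m (by omega) v1 hv1 (by omega) (d2 ++ e)
            (hd2.append heL) hlen'
          have g3 := (gr_eqv h e1).right (hd2.append heL)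
          have g4 := ((g1.right hr).trans (k' := 0) (w := v1 ++ (d2 ++ e)) (by
            simpa using g3)).tw g2
          refine ⟨v', d1.length + 0 + k, hv', ?_, ?_⟩
          · rw [List.length_append] at hk
            rw [h2]
            simp only [List.length_append, List.length_cons]
            omega
          · rw [h2]
            simpa using g4
      · exact absurd h5 h4

/-- length of a window -/
def L0 (n : ℕ) : ℕ := (n * (n + 1) + 1) * (n + 1)

/-- **Window lemma** -/
theorem window {c : List ℕ} (hc : Lt n c) (hl : L0 n ≤ c.length) :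
    ∃ v k, Lt n v ∧ k + 2 ≤ c.length ∧ Tw F n c v k := by
  have := window_aux h (n := n) (U := n * (n + 1)) (fun v hv => by
    have := hv.length_le
    omega) (n * (n + 1)) [] (Nf.empty n) (by simp) c hc hl
  simpa using this

end Bx

end Pool.Agent.Helper85.Box
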