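import Pool.Agent.Helper76.Conway.TopMk

/-!
# Normal forms of positive permutation braids

`Nf n v`: `v` is a staircase word in letters `< n` (one word for every permutation).
`Nf.step`: a letter `a` is either an ascent of `v` (`v ++ [a]` is a normal form up to the braid relations) or a
descent (`v` is `v' ++ [a]` up to the braid relations), and this is read off the permutation `pm v`.
-/

set_option autoImplicit false

namespace Pool.Agent.Helper85.EV

open Pool.Agent.Helper76.Conway.Top

/-! ### the permutation of a word -/

/-- the permutation of a word -/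
def pm (v : List ℕ) : Equiv.Perm ℕ := (v.map fun a => Equiv.swap a (a + 1)).prod

@[simp] theorem pm_nil : pm [] = 1 := rfl

@[simp] theorem pm_cons (a : ℕ) (v : List ℕ) : pm (a :: v) = Equiv.swap a (a + 1) * pm v := rfl

@[simp] theorem pm_append (u v : List ℕ) : pm (u ++ v) = pm u * pm v := by
  unfold pm
  rw [List.map_append, List.prod_append]

theorem swap_apply_lt {a x : ℕ} (h : x < a) : Equiv.swap a (a + 1) x = x :=
  Equiv.swap_apply_of_ne_of_ne (by omega) (by omega)

theorem swap_apply_gt {a x : ℕ} (h : a + 1 < x) : Equiv.swap a (a + 1) x = x :=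
  Equiv.swap_apply_of_ne_of_ne (by omega) (by omega)

theorem pm_braid (j : ℕ) : pm [j, j + 1, j] = pm [j + 1, j, j + 1] := by
  simp only [pm_cons, pm_nil, mul_one]
  ext x
  simp only [Equiv.Perm.mul_apply]
  rcases lt_trichotomy x j with h | h | h
  · rw [swap_apply_lt h, swap_apply_lt (show x < j + 1 by omega), swap_apply_lt h,
      swap_apply_lt (show x < j + 1 by omega)]
  · subst h
    rw [Equiv.swap_apply_left, Equiv.swap_apply_left, swap_apply_gt (by omega),
      swap_apply_lt (show x < x + 1 by omega), Equiv.swap_apply_left, Equiv.swap_apply_left]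
  · rcases Nat.lt_or_ge (j + 1) x with h' | h'
    · rcases Nat.lt_or_ge (j + 1 + 1) x with h'' | h''
      · rw [swap_apply_gt h', swap_apply_gt h'', swap_apply_gt h', swap_apply_gt h'']
      · have hx : x = j + 1 + 1 := by omega
        subst hx
        rw [swap_apply_gt h', Equiv.swap_apply_right, Equiv.swap_apply_right,
          swap_apply_lt (show j < j + 1 by omega)]
    · have hx : x = j + 1 := by omega
      subst hx
      rw [Equiv.swap_apply_right, swap_apply_lt (show j < j + 1 by omega),
        Equiv.swap_apply_left, Equiv.swap_apply_left,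
        swap_apply_gt (show j + 1 < j + 1 + 1 by omega), Equiv.swap_apply_right]

theorem pm_comm {a b : ℕ} (h : a + 2 ≤ b) : pm [a, b] = pm [b, a] := by
  simp only [pm_cons, pm_nil, mul_one]
  ext x
  simp only [Equiv.Perm.mul_apply]
  rcases Nat.lt_or_ge x b with h1 | h1
  · rw [swap_apply_lt h1]
    rcases Nat.lt_or_ge (a + 1) x with h2 | h2
    · rw [swap_apply_gt h2, swap_apply_lt h1]
    · have h3 : Equiv.swap a (a + 1) x < b := by
        rcases Nat.lt_or_ge x a with h4 | h4
        · rw [swap_apply_lt h4]; omega
        · rcases Nat.eq_or_lt_of_le h4 with h5 | h5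
          · rw [← h5, Equiv.swap_apply_left]; omega
          · have h6 : x = a + 1 := by omega
            rw [h6, Equiv.swap_apply_right]; omega
      rw [swap_apply_lt h3]
  · rw [swap_apply_gt (show a + 1 < x by omega)]
    have h3 : a + 1 < Equiv.swap b (b + 1) x := by
      rcases Nat.eq_or_lt_of_le h1 with h5 | h5
      · rw [← h5, Equiv.swap_apply_left]; omega
      · rcases Nat.lt_or_ge (b + 1) x with h6 | h6
        · rw [swap_apply_gt h6]; omega
        · have h7 : x = b + 1 := by omega
          rw [h7, Equiv.swap_apply_right]; omega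
    rw [swap_apply_gt h3]

theorem pm_eqv {n : ℕ} {u v : List ℕ} (h : Eqv n u v) : pm u = pm v := by
  induction h with
  | refl w => rfl
  | trans _ _ ih ih' => exact ih.trans ih'
  | symm _ ih => exact ih.symm
  | comm x y a b hab hb =>
    have e1 : x ++ a :: b :: y = x ++ ([a, b] ++ y) := rfl
    have e2 : x ++ b :: a :: y = x ++ ([b, a] ++ y) := rfl
    rw [e1, e2, pm_append, pm_append, pm_append, pm_append, pm_comm hab]
  | braid x y j hj =>
    have e1 : x ++ j :: (j + 1) :: j :: y = x ++ ([j, j + 1, j] ++ y) := rfl
    have e2 : x ++ (j + 1) :: j :: (j + 1) :: y = x ++ ([j + 1, j, j + 1] ++ y) := rfl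
    rw [e1, e2, pm_append, pm_append, pm_append, pm_append, pm_braid]

theorem pm_gt {n : ℕ} {v : List ℕ} (hv : ∀ a ∈ v, a < n) {x : ℕ} (hx : n < x) : pm v x = x := by
  induction v with
  | nil => rfl
  | cons a v ih =>
    have h1 := hv a (by simp)
    rw [pm_cons, Equiv.Perm.mul_apply, ih fun b hb => hv b (List.mem_cons_of_mem _ hb),
      swap_apply_gt (by omega)]

theorem pm_le {n : ℕ} {v : List ℕ} (hv : ∀ a ∈ v, a < n) {x : ℕ} (hx : x ≤ n) : pm v x ≤ n := by
  induction v with
  | nil => exact hx
  | cons a v ih =>
    have h1 := hv a (by simp)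
    have h2 := ih fun b hb => hv b (List.mem_cons_of_mem _ hb)
    rw [pm_cons, Equiv.Perm.mul_apply]
    rcases Nat.lt_or_ge (pm v x) a with h3 | h3
    · rw [swap_apply_lt h3]; exact h2
    · rcases Nat.eq_or_lt_of_le h3 with h5 | h5
      · rw [← h5, Equiv.swap_apply_left]; omega
      · rcases Nat.lt_or_ge (a + 1) (pm v x) with h6 | h6
        · rw [swap_apply_gt h6]; exact h2
        · have h7 : pm v x = a + 1 := by omega
          rw [h7, Equiv.swap_apply_right]; omega

/-! ### runs -/

/-- the descending run `n, n - 1, ...` of length `j` -/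
def run (n : ℕ) : ℕ → List ℕ
  | 0 => []
  | j + 1 => run n j ++ [n - j]

theorem mem_run {n j a : ℕ} (hj : j ≤ n + 1) : a ∈ run n j → a ≤ n ∧ n + 1 ≤ a + j := by
  induction j with
  | zero => intro h; simp [run] at h
  | succ j ih =>
    intro h
    rw [run, List.mem_append, List.mem_singleton] at h
    rcases h with h | h
    · have := ih (by omega) h
      omega
    · omega

theorem length_run (n j : ℕ) : (run n j).length = j := by
  induction j with
  | zero => rfl
  | succ j ih => rw [run, List.length_append, ih, List.length_singleton]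

theorem pm_run_lt {n j x : ℕ} (hj : j ≤ n + 1) (hx : x + j < n + 1) : pm (run n j) x = x := by
  induction j with
  | zero => rfl
  | succ j ih =>
    rw [run, pm_append, Equiv.Perm.mul_apply, pm_cons, pm_nil, mul_one,
      swap_apply_lt (by omega), ih (by omega) (by omega)]

theorem pm_run_eq {n j x : ℕ} (hj : j ≤ n + 1) (hx : x + j = n + 1) :
    pm (run n j) x = n + 1 := by
  induction j generalizing x with
  | zero =>
    have : x = n + 1 := by omega
    subst this
    rfl
  | succ j ih =>
    have e : x = n - j := by omega
    rw [run, pm_append, Equiv.Perm.mul_apply, pm_cons, pm_nil, mul_one, ← e,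
      Equiv.swap_apply_left]
    exact ih (by omega) (by omega)

theorem pm_run_gt {n j x : ℕ} (hj : j ≤ n + 1) (hx : n + 1 < x + 1 + j) (hx' : x ≤ n) :
    pm (run n j) (x + 1) = x := by
  induction j with
  | zero => omega
  | succ j ih =>
    rw [run, pm_append, Equiv.Perm.mul_apply, pm_cons, pm_nil, mul_one]
    by_cases h : x = n - j
    · rw [← h, Equiv.swap_apply_right]
      exact pm_run_lt (by omega) (by omega)
    · rw [swap_apply_gt (by omega)]
      exact ih (by omega) (by omega)

/-- a letter commutes with much larger letters -/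
theorem eqv_pass' {n a : ℕ} (u : List ℕ) (hu : ∀ b ∈ u, a + 2 ≤ b ∧ b < n) :
    Eqv n (u ++ [a]) (a :: u) := by
  induction u with
  | nil => exact Eqv.refl _
  | cons b u ih =>
    have h1 := (Eqv.comm [] u a b (hu b (by simp)).1 (hu b (by simp)).2).symm
    have h2 := (ih (fun c hc => hu c (List.mem_cons_of_mem _ hc))).ctx [b] []
    simp only [List.append_nil, List.singleton_append] at h2
    exact h2.trans h1

/-- passing through a run -/
theorem eqv_run {n j a : ℕ} (hj : j ≤ n + 1) (ha : a + 1 ≤ n) (h : n + 1 < a + 1 + j) :
    Eqv (n + 1) (run n j ++ [a + 1]) (a :: run n j) := by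
  induction j with
  | zero => omega
  | succ j ih =>
    by_cases h1 : a = n - j
    · cases j with
      | zero => omega
      | succ k =>
        have e1 : n - k = a + 1 := by omega
        have e2 : run n (k + 1 + 1) ++ [a + 1] = run n k ++ (a + 1) :: a :: (a + 1) :: [] := by
          rw [run, run, e1, ← h1]
          simp
        have e3 := (Eqv.braid (n := n + 1) (run n k) [] a (by omega)).symm
        have e4 : Eqv (n + 1) (run n k ++ [a]) (a :: run n k) := by
          refine eqv_pass' _ ?_
          intro b hb
          have := mem_run (by omega) hb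
          omega
        have e5 := e4.ctx [] [a + 1, a]
        have e6 : a :: run n (k + 1 + 1) = a :: run n k ++ [a + 1, a] := by
          rw [run, run, e1, ← h1]
          simp
        rw [e2, e6]
        refine e3.trans ?_
        simpa using e5
    · have h2 := ih (by omega) (by omega)
      have e1 : Eqv (n + 1) (run n j ++ [n - j, a + 1]) (run n j ++ [a + 1, n - j]) :=
        Eqv.comm (run n j) [] (n - j) (a + 1) (by omega) (by omega)
      have e2 := h2.ctx [] [n - j]
      have e3 : run n (j + 1) ++ [a + 1] = run n j ++ [n - j, a + 1] := by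
        rw [run]; simp
      have e4 : a :: run n (j + 1) = a :: run n j ++ [n - j] := by
        rw [run]; simp
      rw [e3, e4]
      refine e1.trans ?_
      simpa using e2

/-! ### normal forms -/

/-- staircase words -/
inductive Nf : ℕ → List ℕ → Prop
  | nil : Nf 0 []
  | cons {n j : ℕ} {v : List ℕ} (h : Nf n v) (hj : j ≤ n + 1) : Nf (n + 1) (v ++ run n j)

theorem Nf.lt {n : ℕ} {v : List ℕ} (h : Nf n v) : ∀ a ∈ v, a < n := by
  induction h with
  | nil => intro a ha; simp at ha
  | cons h hj ih =>
    intro a ha
    rcases List.mem_append.1 ha with ha | ha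
    · have := ih a ha; omega
    · have := mem_run hj ha; omega

theorem Nf.length_le {n : ℕ} {v : List ℕ} (h : Nf n v) : 2 * v.length ≤ n * (n + 1) := by
  induction h with
  | nil => simp
  | cons h hj ih =>
    rw [List.length_append, length_run]
    nlinarith

theorem Nf.empty (n : ℕ) : Nf n [] := by
  induction n with
  | zero => exact Nf.nil
  | succ n ih => exact Nf.cons (j := 0) ih (by omega)

/-- **Ascents and descents.** -/
theorem Nf.step {n : ℕ} {v : List ℕ} (h : Nf n v) : ∀ {a : ℕ}, a < n →
    (pm v a < pm v (a + 1) ∧ ∃ v', Nf n v' ∧ Eqv n (v ++ [a]) v') ∨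
    (pm v (a + 1) < pm v a ∧ ∃ v', Nf n v' ∧ Eqv n v (v' ++ [a])) := by
  induction h with
  | nil => intro a ha; omega
  | @cons n j v h hj ih =>
    intro a ha
    have hle : ∀ {x : ℕ}, x ≤ n → pm v x ≤ n := fun hx => pm_le h.lt hx
    have htop : pm v (n + 1) = n + 1 := pm_gt h.lt (by omega)
    rcases Nat.lt_or_ge (a + j) n with h1 | h1
    · -- the letter commutes with the run
      have e0 : Eqv (n + 1) (run n j ++ [a]) (a :: run n j) := by
        refine eqv_pass' _ ?_
        intro b hb
        have := mem_run hj hb
        omega
      rw [pm_append, Equiv.Perm.mul_apply, Equiv.Perm.mul_apply, pm_run_lt hj (by omega),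
        pm_run_lt hj (by omega)]
      rcases ih (show a < n by omega) with ⟨h2, v', h3, h4⟩ | ⟨h2, v', h3, h4⟩
      · refine Or.inl ⟨h2, v' ++ run n j, Nf.cons h3 hj, ?_⟩
        have e1 := e0.ctx v []
        have e2 := h4.lift.ctx [] (run n j)
        simp only [List.append_nil, List.nil_append, List.append_assoc,
          List.singleton_append] at e1 e2 ⊢
        exact e1.trans e2
      · refine Or.inr ⟨h2, v' ++ run n j, Nf.cons h3 hj, ?_⟩
        have e1 := e0.symm.ctx v' []
        have e2 := h4.lift.ctx [] (run n j)
        simp only [List.append_nil, List.nil_append, List.append_assoc,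
          List.singleton_append] at e1 e2 ⊢
        exact e2.trans e1
    · rcases Nat.eq_or_lt_of_le h1 with h1 | h1
      · -- the run gets longer
        refine Or.inl ⟨?_, v ++ run n (j + 1), Nf.cons h (by omega), ?_⟩
        · rw [pm_append, Equiv.Perm.mul_apply, Equiv.Perm.mul_apply, pm_run_lt hj (by omega),
            pm_run_eq hj (by omega), htop]
          have := hle (show a ≤ n by omega)
          omega
        · have : n - j = a := by omega
          rw [run, this, List.append_assoc]
          exact Eqv.refl _
      · rcases Nat.eq_or_lt_of_le h1 with h1 | h1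
        · -- the last letter of the run
          cases j with
          | zero => omega
          | succ j =>
            refine Or.inr ⟨?_, v ++ run n j, Nf.cons h (by omega), ?_⟩
            · rw [pm_append, Equiv.Perm.mul_apply, Equiv.Perm.mul_apply,
                pm_run_eq (x := a) hj (by omega), pm_run_gt hj (by omega) (by omega), htop]
              have := hle (show a ≤ n by omega)
              omega
            · have : n - j = a := by omega
              rw [run, this, List.append_assoc]
              exact Eqv.refl _
        · -- the letter passes and is lowered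
          cases a with
          | zero => omega
          | succ a =>
            have e0 : Eqv (n + 1) (run n j ++ [a + 1]) (a :: run n j) :=
              eqv_run hj (by omega) (by omega)
            rw [pm_append, Equiv.Perm.mul_apply, Equiv.Perm.mul_apply,
              pm_run_gt hj (by omega) (by omega), pm_run_gt (x := a + 1) hj (by omega) (by omega)]
            rcases ih (show a < n by omega) with ⟨h2, v', h3, h4⟩ | ⟨h2, v', h3, h4⟩
            · refine Or.inl ⟨h2, v' ++ run n j, Nf.cons h3 hj, ?_⟩
              have e1 := e0.ctx v []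
              have e2 := h4.lift.ctx [] (run n j)
              simp only [List.append_nil, List.nil_append, List.append_assoc,
                List.singleton_append] at e1 e2 ⊢
              exact e1.trans e2
            · refine Or.inr ⟨h2, v' ++ run n j, Nf.cons h3 hj, ?_⟩
              have e1 := e0.symm.ctx v' []
              have e2 := h4.lift.ctx [] (run n j)
              simp only [List.append_nil, List.nil_append, List.append_assoc,
                List.singleton_append] at e1 e2 ⊢
              exact e2.trans e1

/-- up step -/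
theorem Nf.asc {n : ℕ} {v : List ℕ} (h : Nf n v) {a : ℕ} (ha : a < n)
    (h1 : pm v a < pm v (a + 1)) : ∃ v', Nf n v' ∧ Eqv n (v ++ [a]) v' := by
  rcases h.step ha with h2 | h2
  · exact h2.2
  · omega

/-- down step -/
theorem Nf.desc {n : ℕ} {v : List ℕ} (h : Nf n v) {a : ℕ} (ha : a < n)
    (h1 : pm v (a + 1) < pm v a) : ∃ v', Nf n v' ∧ Eqv n v (v' ++ [a]) := by
  rcases h.step ha with h2 | h2
  · omega
  · exact h2.2

theorem pm_snoc_left {v v' : List ℕ} {a n : ℕ} (h : Eqv n v (v' ++ [a])) :
    pm v' a = pm v (a + 1) ∧ pm v' (a + 1) = pm v a ∧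
      ∀ x, x ≠ a → x ≠ a + 1 → pm v' x = pm v x := by
  have h1 := pm_eqv h
  rw [pm_append, pm_cons, pm_nil, mul_one] at h1
  refine ⟨?_, ?_, fun x hx hx' => ?_⟩
  · rw [h1, Equiv.Perm.mul_apply, Equiv.swap_apply_right]
  · rw [h1, Equiv.Perm.mul_apply, Equiv.swap_apply_left]
  · rw [h1, Equiv.Perm.mul_apply, Equiv.swap_apply_of_ne_of_ne hx hx']

/-- a second descent is still a descent after a down step -/
theorem desc_of_desc {v v' : List ℕ} {a b n : ℕ} (h : Eqv n v (v' ++ [a])) (hab : a ≠ b)
    (ha : pm v (a + 1) < pm v a) (hb : pm v (b + 1) < pm v b) : pm v' (b + 1) < pm v' b := by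
  obtain ⟨h1, h2, h3⟩ := pm_snoc_left h
  by_cases e1 : b = a + 1
  · subst e1
    rw [h2, h3 _ (by omega) (by omega)]
    omega
  · by_cases e2 : b + 1 = a
    · subst e2
      rw [h1, h3 _ (by omega) (by omega)]
      omega
    · rw [h3 _ (by omega) (by omega), h3 _ (by omega) (by omega)]
      exact hb

end Pool.Agent.Helper85.EV
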