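import Pool.Agent.Helper85.EV.Win
import Pool.Agent.Helper43.EV.Plug

/-!
# The tail bound

`tail_windows`: `‖F(w)(z)‖ ≤ exp (-(κ K)) F(w)(|z|)` for every word `w` with at least `K` windows.
`ph3`: the plug `PH3`.
-/

set_option autoImplicit false

namespace Pool.Agent.Helper85.EV

open Polynomial Pool.Agent.Helper76.Conway.Top

variable {G : ℕ → Type} [∀ n, Group (G n)] {s : ∀ n, ℕ → G n} {N : ∀ n, G n → ℤ[X]}

theorem norm_aeval_le {z : ℂ} {P : ℤ[X]} (hP : Le 0 P) : ‖aeval z P‖ ≤ ev ‖z‖ P := by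
  unfold ev
  rw [aeval_eq_sum_range, aeval_eq_sum_range]
  refine (norm_sum_le _ _).trans (Finset.sum_le_sum fun i _ => ?_)
  have h2 := hP i
  rw [coeff_zero] at h2
  have h3 : (0 : ℝ) ≤ (P.coeff i : ℝ) := by exact_mod_cast h2
  rw [zsmul_eq_mul, zsmul_eq_mul, norm_mul, norm_pow]
  have h4 : ‖((P.coeff i : ℤ) : ℂ)‖ = (P.coeff i : ℝ) := by
    rw [Complex.norm_intCast, abs_of_nonneg h3]
  rw [h4]

/-- bound for a sum of terms -/
theorem norm_val_le {F : List ℕ → ℤ[X]} {z : ℂ} {A : ℝ} {x y : List ℕ} {n : ℕ}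
    (hA : ∀ u : List ℕ, Lt n u → ‖aeval z (F (x ++ (u ++ y)))‖ ≤ A * ev ‖z‖ (F (x ++ (u ++ y))))
    {S : List (ℕ × List ℕ)} (hS : LtS n S) :
    ‖aeval z (val F S x y)‖ ≤ A * ev ‖z‖ (val F S x y) := by
  induction S with
  | nil =>
    unfold ev
    rw [val_nil]
    simp
  | cons p S ih =>
    have h1 := ih fun q hq => hS q (List.mem_cons_of_mem _ hq)
    have h2 := hA p.2 (hS p (by simp))
    have e : val F (p :: S) x y = X ^ p.1 * F (x ++ (p.2 ++ y)) + val F S x y := by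
      unfold val
      rw [List.map_cons, List.sum_cons]
    have e2 : ev ‖z‖ (val F (p :: S) x y) =
        ‖z‖ ^ p.1 * ev ‖z‖ (F (x ++ (p.2 ++ y))) + ev ‖z‖ (val F S x y) := by
      rw [e]
      unfold ev
      rw [map_add, map_mul, map_pow, aeval_X]
    have e3 : aeval z (val F (p :: S) x y) =
        z ^ p.1 * aeval z (F (x ++ (p.2 ++ y))) + aeval z (val F S x y) := by
      rw [e, map_add, map_mul, map_pow, aeval_X]
    rw [e2, e3]
    refine (norm_add_le _ _).trans ?_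
    rw [norm_mul, norm_pow, mul_add]
    refine add_le_add ?_ h1
    have h3 : ‖z‖ ^ p.1 * ‖aeval z (F (x ++ (p.2 ++ y)))‖ ≤
        ‖z‖ ^ p.1 * (A * ev ‖z‖ (F (x ++ (p.2 ++ y)))) :=
      mul_le_mul_of_nonneg_left h2 (by positivity)
    calc _ ≤ _ := h3
      _ = _ := by ring

/-- the gain constant -/
noncomputable def kap (M : ℕ) (r : ℝ) : ℝ := (r / (1 + r)) ^ (M + 2) / (1 + r)

theorem kap_pos {M : ℕ} {r : ℝ} (hr : 0 < r) : 0 < kap M r := by
  unfold kap
  positivity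

/-- `1 + r - |1 + r e^{iθ}| ≥ r (1 - cos θ) / (1 + r)` -/
theorem gain {r θ : ℝ} (hr : 0 < r) :
    r * (1 - Real.cos θ) / (1 + r) ≤ 1 + r - ‖1 + (r : ℂ) * Complex.exp (θ * Complex.I)‖ := by
  have h1 : ‖1 + (r : ℂ) * Complex.exp (θ * Complex.I)‖ ^ 2 =
      (1 + r) ^ 2 - 2 * r * (1 - Real.cos θ) := by
    rw [← Complex.normSq_eq_norm_sq, Complex.normSq_apply]
    have hre : (1 + (r : ℂ) * Complex.exp (θ * Complex.I)).re = 1 + r * Real.cos θ := by
      simp [Complex.exp_ofReal_mul_I_re]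
    have him : (1 + (r : ℂ) * Complex.exp (θ * Complex.I)).im = r * Real.sin θ := by
      simp [Complex.exp_ofReal_mul_I_im]
    rw [hre, him]
    have := Real.sin_sq_add_cos_sq θ
    nlinarith
  set t := r * (1 - Real.cos θ) / (1 + r) with ht
  have hc : Real.cos θ ≤ 1 := Real.cos_le_one θ
  have hc' : -1 ≤ Real.cos θ := Real.neg_one_le_cos θ
  have ht1 : t * (1 + r) = r * (1 - Real.cos θ) := by
    rw [ht]
    field_simp
  have ht2 : t ≤ 1 + r := by
    rw [ht, div_le_iff₀ (by positivity)]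
    nlinarith
  have h2 : ‖1 + (r : ℂ) * Complex.exp (θ * Complex.I)‖ ≤ 1 + r - t := by
    rw [← pow_le_pow_iff_left₀ (norm_nonneg _) (by linarith) (two_ne_zero), h1]
    nlinarith [sq_nonneg t]
  linarith

/-- one window -/
theorem one_window {F : List ℕ → ℤ[X]} {n k : ℕ} {c v x y : List ℕ} (hT : Tw F n c v k)
    (hv : Lt n v) (hx : Lt n x) (hy : Lt n y) {r θ A : ℝ} (hr : 0 < r) {z : ℂ}
    (hz : z ^ 2 = (r : ℂ) * Complex.exp (θ * Complex.I)) (hA0 : 0 ≤ A) {M : ℕ} (hk : k ≤ M)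
    (hpos : ∀ u : List ℕ, Lt n u → 0 ≤ ev ‖z‖ (F (x ++ (u ++ y)))) (hc : Lt n c)
    (hA : ∀ u : List ℕ, Lt n u → ‖aeval z (F (x ++ (u ++ y)))‖ ≤ A * ev ‖z‖ (F (x ++ (u ++ y)))) :
    ‖aeval z (F (x ++ (c ++ y)))‖ ≤
      A * (1 - kap M r * (1 - Real.cos θ)) * ev ‖z‖ (F (x ++ (c ++ y))) := by
  obtain ⟨hH, S, hS, hE⟩ := hT
  obtain ⟨ρ, hρ⟩ : ∃ ρ, ρ = ‖z‖ := ⟨_, rfl⟩
  have hr2 : ρ ^ 2 = r := by
    rw [hρ, ← norm_pow, hz, norm_mul, Complex.norm_exp_ofReal_mul_I, mul_one, Complex.norm_real,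
      Real.norm_of_nonneg hr.le]
  have hρ0 : 0 < ρ := by
    rcases eq_or_lt_of_le (show 0 ≤ ρ by rw [hρ]; exact norm_nonneg _) with h | h
    · rw [← h] at hr2
      norm_num at hr2
      linarith
    · exact h
  rw [← hρ] at hpos hA ⊢
  have h1 := hH ρ hρ0 x y hx hy
  have h2 : ‖aeval z (val F S x y)‖ ≤ A * ev ρ (val F S x y) := by
    rw [hρ] at hA ⊢
    exact norm_val_le hA hS
  have h3 := hA v hv
  have hfv := hpos v hv
  have hfc := hpos c hc
  set fv := ev ρ (F (x ++ (v ++ y))) with hfv'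
  set fc := ev ρ (F (x ++ (c ++ y))) with hfc'
  set fs := ev ρ (val F S x y) with hfs
  have e1 : fc = (ρ ^ k + ρ ^ (k + 2)) * fv + fs := by
    rw [hfc', hE]
    simp only [ev, map_add, map_mul, map_pow, aeval_X, hfv', hfs]
  have e2 : aeval z (F (x ++ (c ++ y))) =
      z ^ k * (1 + z ^ 2) * aeval z (F (x ++ (v ++ y))) + aeval z (val F S x y) := by
    rw [hE]
    simp only [map_add, map_mul, map_pow, aeval_X]
    ring
  have hg := gain (r := r) (θ := θ) hr
  rw [← hz] at hg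
  set E := 1 + r - ‖1 + z ^ 2‖ with hE'
  have h4 : ‖aeval z (F (x ++ (c ++ y)))‖ ≤ A * (fc - ρ ^ k * E * fv) := by
    rw [e2]
    refine (norm_add_le _ _).trans ?_
    rw [norm_mul, norm_mul, norm_pow, ← hρ]
    have h5 : ρ ^ k * ‖1 + z ^ 2‖ * ‖aeval z (F (x ++ (v ++ y)))‖ ≤
        ρ ^ k * ‖1 + z ^ 2‖ * (A * fv) := mul_le_mul_of_nonneg_left h3 (by positivity)
    have h6 : A * (fc - ρ ^ k * E * fv) = ρ ^ k * ‖1 + z ^ 2‖ * (A * fv) + A * fs := by
      rw [e1, hE', pow_add, hr2]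
      ring
    rw [h6]
    exact add_le_add h5 h2
  refine h4.trans ?_
  rw [mul_assoc A]
  refine mul_le_mul_of_nonneg_left ?_ hA0
  -- the Harnack inequality
  set q := r / (1 + r) with hq
  have hq0 : 0 < q := by rw [hq]; positivity
  have hq1 : q ≤ 1 := by
    rw [hq, div_le_one (by positivity)]
    linarith
  have h7 : ρ ^ k * fv ≥ q ^ k * (q / (1 + r)) * fc := by
    have h8 : (ρ + ρ⁻¹) = (1 + r) / ρ := by
      rw [← hr2]
      field_simp
      ring
    have h9 : q ^ k * (q / (1 + r)) * (ρ + ρ⁻¹) ^ (k + 2) = ρ ^ k := by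
      rw [h8, hq, ← hr2, div_pow, div_pow]
      field_simp
      ring
    have h10 : q ^ k * (q / (1 + r)) * fc ≤ q ^ k * (q / (1 + r)) * ((ρ + ρ⁻¹) ^ (k + 2) * fv) :=
      mul_le_mul_of_nonneg_left h1 (by positivity)
    rw [← mul_assoc, h9] at h10
    exact h10
  have h11 : q ^ M ≤ q ^ k := pow_le_pow_of_le_one hq0.le hq1 hk
  have hcos : 0 ≤ 1 - Real.cos θ := by linarith [Real.cos_le_one θ]
  have h12 : q * (1 - Real.cos θ) ≤ E := by
    rw [hq, div_mul_eq_mul_div]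
    exact hg
  have hE0 : 0 ≤ E := le_trans (by positivity) h12
  have h13 : kap M r * (1 - Real.cos θ) * fc ≤ ρ ^ k * E * fv := by
    have h14 : q ^ M * (q / (1 + r)) * fc ≤ ρ ^ k * fv := by
      refine le_trans ?_ h7
      refine mul_le_mul_of_nonneg_right ?_ hfc
      exact mul_le_mul_of_nonneg_right h11 (by positivity)
    have h15 : q ^ M * (q / (1 + r)) * fc * (q * (1 - Real.cos θ)) ≤ ρ ^ k * fv * E :=
      mul_le_mul h14 h12 (by positivity) (by positivity)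
    have h16 : kap M r * (1 - Real.cos θ) * fc =
        q ^ M * (q / (1 + r)) * fc * (q * (1 - Real.cos θ)) := by
      unfold kap
      rw [← hq]
      ring
    rw [h16]
    calc _ ≤ _ := h15
      _ = _ := by ring
  linarith

theorem kap_mono {M : ℕ} {r0 r R : ℝ} (h0 : 0 < r0) (h1 : r0 ≤ r) (h2 : r ≤ R) :
    (r0 / (1 + r0)) ^ (M + 2) / (1 + R) ≤ kap M r := by
  unfold kap
  have hr : 0 < r := lt_of_lt_of_le h0 h1
  have hR : 0 < R := lt_of_lt_of_le hr h2
  have h3 : r0 / (1 + r0) ≤ r / (1 + r) := by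
    rw [div_le_div_iff₀ (by positivity) (by positivity)]
    nlinarith
  have h4 : (r0 / (1 + r0)) ^ (M + 2) ≤ (r / (1 + r)) ^ (M + 2) :=
    pow_le_pow_left₀ (by positivity) h3 _
  have h5 : 1 + r ≤ 1 + R := by linarith
  exact div_le_div₀ (by positivity) h4 (by positivity) h5

section Mk

variable (h : Mk G s N) {n : ℕ}

include h

/-- **Tail bound** for a word with `K` windows -/
theorem tail_windows {r θ : ℝ} (hr : 0 < r) {z : ℂ}
    (hz : z ^ 2 = (r : ℂ) * Complex.exp (θ * Complex.I)) : ∀ (K : ℕ) (w x : List ℕ), Lt n w →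
    Lt n x → K * L0 n ≤ w.length →
      ‖aeval z (Fw s N n (x ++ w))‖ ≤
        Real.exp (-(kap (L0 n) r * (1 - Real.cos θ) * K)) * ev ‖z‖ (Fw s N n (x ++ w)) := by
  intro K
  have hρ0 : 0 < ‖z‖ := by
    rw [norm_pos_iff]
    rintro rfl
    have : (r : ℂ) * Complex.exp (θ * Complex.I) = 0 := by rw [← hz]; simp
    rcases mul_eq_zero.1 this with h1 | h1
    · have : r = 0 := by exact_mod_cast h1
      linarith
    · exact Complex.exp_ne_zero _ h1
  induction K with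
  | zero =>
    intro w x hw hx _
    simp only [Nat.cast_zero, mul_zero, neg_zero, Real.exp_zero, one_mul]
    exact norm_aeval_le (h.pos n _ (hx.append hw))
  | succ K ih =>
    intro w x hw hx hl
    obtain ⟨c, hc⟩ : ∃ c, c = w.take (L0 n) := ⟨_, rfl⟩
    obtain ⟨y, hy⟩ : ∃ y, y = w.drop (L0 n) := ⟨_, rfl⟩
    have hcy : w = c ++ y := by rw [hc, hy, List.take_append_drop]
    have hl0 : L0 n ≤ w.length := by
      have : (K + 1) * L0 n = K * L0 n + L0 n := by ring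
      omega
    have hcl : c.length = L0 n := by
      rw [hc, List.length_take]
      omega
    subst hcy
    have hyl : K * L0 n ≤ y.length := by
      rw [List.length_append, hcl] at hl
      have : (K + 1) * L0 n = K * L0 n + L0 n := by ring
      omega
    obtain ⟨v, k, hv, hk, hT⟩ := window h hw.left (le_of_eq hcl.symm)
    have h1 := one_window (M := L0 n) hT hv hx hw.right hr hz
      (A := Real.exp (-(kap (L0 n) r * (1 - Real.cos θ) * K))) (Real.exp_pos _).le (by omega)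
      (fun u hu => ev_nonneg h hρ0 (hx.append (hu.append hw.right))) hw.left (by
        intro u hu
        have := ih y (x ++ u) hw.right (hx.append hu) hyl
        simpa using this)
    refine h1.trans ?_
    refine mul_le_mul_of_nonneg_right ?_ (ev_nonneg h hρ0 (hx.append (hw.left.append hw.right)))
    have h2 : 1 - kap (L0 n) r * (1 - Real.cos θ) ≤
        Real.exp (-(kap (L0 n) r * (1 - Real.cos θ))) := by
      have := Real.add_one_le_exp (-(kap (L0 n) r * (1 - Real.cos θ)))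
      linarith
    have h3 := mul_le_mul_of_nonneg_left h2
      (Real.exp_pos (-(kap (L0 n) r * (1 - Real.cos θ) * K))).le
    refine h3.trans (le_of_eq ?_)
    rw [← Real.exp_add]
    congr 1
    push_cast
    ring

end Mk

open Pool.Agent.Helper43.EV in
/-- **The plug `PH3`** -/
theorem ph3 (h : Mk G s N) : PH3 s N := by
  intro n Φ hΦ
  obtain ⟨R, hR⟩ : ∃ R, R = 4 * Real.sinh Φ ^ 2 := ⟨_, rfl⟩
  have hR0 : 0 < R := by
    rw [hR]
    have := Real.sinh_pos_iff.2 hΦ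
    positivity
  obtain ⟨M, hM⟩ : ∃ M, M = L0 n := ⟨_, rfl⟩
  have hM0 : 0 < M := by
    rw [hM]
    unfold L0
    positivity
  have hM1 : (0 : ℝ) < M := by exact_mod_cast hM0
  obtain ⟨κ, hκ⟩ : ∃ κ : ℝ → ℝ, κ = fun r0 => (r0 / (1 + r0)) ^ (M + 2) / (1 + R) := ⟨_, rfl⟩
  have hκ0 : ∀ r, 0 < r → 0 < κ r := by
    intro r hr
    rw [hκ]
    positivity
  refine ⟨fun r => κ r / M, fun r => Real.exp (2 * κ r), fun r hr =>
    ⟨div_pos (hκ0 r hr) hM1, Real.exp_pos _⟩, ?_⟩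
  intro w hw _ p P hP r0 hr0 r θ hr hrR
  have hrpos : 0 < r := lt_of_lt_of_le hr0 hr
  obtain ⟨ρ, hρ⟩ : ∃ ρ, ρ = Real.sqrt r := ⟨_, rfl⟩
  have hρ0 : 0 < ρ := by rw [hρ]; exact Real.sqrt_pos.2 hrpos
  have hρ2 : ρ ^ 2 = r := by rw [hρ]; exact Real.sq_sqrt hrpos.le
  obtain ⟨z, hz⟩ : ∃ z : ℂ, z = (ρ : ℂ) * Complex.exp (θ / 2 * Complex.I) := ⟨_, rfl⟩
  have hz2 : z ^ 2 = (r : ℂ) * Complex.exp (θ * Complex.I) := by
    rw [hz, mul_pow, ← Complex.exp_nat_mul, ← hρ2]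
    push_cast
    congr 2
    ring
  have hzn : ‖z‖ = ρ := by
    have : (θ / 2 * Complex.I : ℂ) = ((θ / 2 : ℝ) : ℂ) * Complex.I := by push_cast; ring
    rw [hz, norm_mul, this, Complex.norm_exp_ofReal_mul_I, mul_one, Complex.norm_real,
      Real.norm_of_nonneg hρ0.le]
  have key := tail_windows h (n := n) hrpos hz2 (w.length / M) w [] hw (Lt.nil n) (by
    rw [← hM]
    exact Nat.div_mul_le_self _ _)
  rw [List.nil_append] at key
  have e1 : aeval z (Fw s N n w) = z ^ p * aeval (z ^ 2) P := hP.ev z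
  have e2 : ev ‖z‖ (Fw s N n w) = ρ ^ p * P.eval r := by
    have h1 := hP.ev (ρ : ℂ)
    have h2 : aeval ((ρ : ℝ) : ℂ) (N n (V (s n) w)) = ((aeval ρ (N n (V (s n) w)) : ℝ) : ℂ) :=
      aeval_algebraMap_apply ℂ ρ _
    have h3 : aeval (((ρ : ℝ) : ℂ) ^ 2) P = ((P.eval r : ℝ) : ℂ) := by
      have h4 : ((ρ : ℝ) : ℂ) ^ 2 = ((r : ℝ) : ℂ) := by rw [← hρ2]; push_cast; ring
      rw [h4]
      have h5 := aeval_algebraMap_apply ℂ r P
      rw [coe_aeval_eq_eval] at h5
      exact h5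
    rw [h2, h3] at h1
    rw [hzn]
    unfold ev Fw
    exact_mod_cast h1
  rw [e1, e2, norm_mul, norm_pow, hzn, hz2] at key
  have key2 : ‖aeval ((r : ℂ) * Complex.exp (θ * Complex.I)) P‖ ≤
      Real.exp (-(kap (L0 n) r * (1 - Real.cos θ) * ((w.length / M : ℕ) : ℝ))) * P.eval r := by
    have hp : 0 < ρ ^ p := by positivity
    rw [← mul_le_mul_iff_right₀ hp]
    calc _ ≤ _ := key
      _ = _ := by ring
  refine key2.trans ?_
  have hPr : 0 ≤ P.eval r := by
    rw [eval_eq_sum_range]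
    refine Finset.sum_nonneg fun i _ => ?_
    have := hP.nn i
    positivity
  refine mul_le_mul_of_nonneg_right ?_ hPr
  rw [← Real.exp_add, Real.exp_le_exp]
  have hk := kap_mono (M := L0 n) hr0 hr (by rw [hR]; exact hrR : r ≤ R)
  have hk' : κ r0 ≤ kap (L0 n) r := by
    rw [hκ, hM]
    exact hk
  have hcos : 0 ≤ 1 - Real.cos θ := by linarith [Real.cos_le_one θ]
  have hcos2 : 1 - Real.cos θ ≤ 2 := by linarith [Real.neg_one_le_cos θ]
  have hdiv : (w.length : ℝ) / M - 1 ≤ ((w.length / M : ℕ) : ℝ) := by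
    have h1 : w.length < M * (w.length / M + 1) := Nat.lt_mul_div_succ _ hM0
    have h2 : (w.length : ℝ) < M * (((w.length / M : ℕ) : ℝ) + 1) := by exact_mod_cast h1
    rw [sub_le_iff_le_add, div_le_iff₀ hM1]
    linarith
  have hD0 : (0 : ℝ) ≤ ((w.length / M : ℕ) : ℝ) := Nat.cast_nonneg _
  have h1 : κ r0 * (1 - Real.cos θ) * ((w.length / M : ℕ) : ℝ) ≤
      kap (L0 n) r * (1 - Real.cos θ) * ((w.length / M : ℕ) : ℝ) :=
    mul_le_mul_of_nonneg_right (mul_le_mul_of_nonneg_right hk' hcos) hD0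
  have h2 : κ r0 * (1 - Real.cos θ) * ((w.length : ℝ) / M - 1) ≤
      κ r0 * (1 - Real.cos θ) * ((w.length / M : ℕ) : ℝ) :=
    mul_le_mul_of_nonneg_left hdiv (mul_nonneg (hκ0 r0 hr0).le hcos)
  have h3 : κ r0 * (1 - Real.cos θ) ≤ 2 * κ r0 := by
    have := mul_le_mul_of_nonneg_left hcos2 (hκ0 r0 hr0).le
    linarith
  have h4 : κ r0 * (1 - Real.cos θ) * ((w.length : ℝ) / M - 1) =
      κ r0 / M * w.length * (1 - Real.cos θ) - κ r0 * (1 - Real.cos θ) := by
    field_simp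
  linarith

end Pool.Agent.Helper85.EV
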